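import Pool.Agent.Q322.FG.Count

set_option autoImplicit false

/-!
# A finitely generated subsemigroup of density zero whose automorphic closure is everything

For every `r ≥ 2` there is a finitely generated subsemigroup `M` of the free group `F_r` which has
density `0` (exponentially fast), such that every nontrivial element of `F_r` is the image of an
element of `M` under an automorphism. In particular `Aut(F_r) M` has density `1`.
-/

namespace Pool.Agent.Results.MP_b831a3_al.SmallSemigroupFullClosure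

open Filter Topology

/-- The probability that a random reduced word of length at most `n` lies in `S`. -/
noncomputable def prob (r : ℕ) (S : Set (FreeGroup (Fin r))) (n : ℕ) : ℝ :=
  (Set.ncard {w | w ∈ S ∧ w.toWord.length ≤ n} : ℝ) /
    (Set.ncard {w : FreeGroup (Fin r) | w.toWord.length ≤ n} : ℝ)

/-- The automorphic closure of a set. -/
def autClosure (r : ℕ) (S : Set (FreeGroup (Fin r))) : Set (FreeGroup (Fin r)) :=
  {w | ∃ φ : FreeGroup (Fin r) ≃* FreeGroup (Fin r), ∃ m ∈ S, φ m = w}

open Pool.Agent.Q322.FG in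
/-- For every `r ≥ 2` there is a finitely generated subsemigroup of `F_r` of density `0`
(exponentially fast) whose automorphic closure contains all nontrivial elements and has
density `1`. -/
theorem result (r : ℕ) (hr : 2 ≤ r) :
    ∃ X : Set (FreeGroup (Fin r)), X.Finite ∧
      (∃ lam : ℝ, 0 < lam ∧ lam < 1 ∧ ∀ n : ℕ,
        prob r (Subsemigroup.closure X : Set (FreeGroup (Fin r))) n ≤ 4 * lam ^ n) ∧
      Tendsto (prob r (Subsemigroup.closure X : Set (FreeGroup (Fin r)))) atTop (𝓝 0) ∧
      (∀ w : FreeGroup (Fin r), w ≠ 1 →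
        w ∈ autClosure r (Subsemigroup.closure X : Set (FreeGroup (Fin r)))) ∧
      Tendsto (prob r (autClosure r (Subsemigroup.closure X : Set (FreeGroup (Fin r)))))
        atTop (𝓝 1) := by
  obtain ⟨k, rfl⟩ : ∃ k, r = k + 2 := ⟨r - 2, by omega⟩
  have hk0 : (0 : ℝ) ≤ k := Nat.cast_nonneg k
  have hq : (0 : ℝ) < 2 * k + 3 := by positivity
  have hball : ∀ n : ℕ, ((2 * k + 3 : ℝ)) ^ n ≤
      (Set.ncard {w : FreeGroup (Fin (k + 2)) | w.toWord.length ≤ n} : ℝ) := by
    intro n
    have := Bl_ge k n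
    have h2 : (((2 * k + 3) ^ n : ℕ) : ℝ) ≤ ((Bl (k + 2) n).ncard : ℝ) := Nat.cast_le.2 this
    push_cast at h2
    exact h2
  have hballpos : ∀ n : ℕ, (0 : ℝ) <
      (Set.ncard {w : FreeGroup (Fin (k + 2)) | w.toWord.length ≤ n} : ℝ) := fun n =>
    lt_of_lt_of_le (by positivity) (hball n)
  have hexp : ∀ n : ℕ, prob (k + 2) (Subsemigroup.closure (X0 k) : Set (Fr k)) n ≤
      4 * (((2 * k + 3 : ℝ) - 1 / (2 * k + 3)) / (2 * k + 3)) ^ n := by
    intro n
    have h1 := M_le k n
    have h2 : {w | w ∈ (Subsemigroup.closure (X0 k) : Set (Fr k)) ∧ w.toWord.length ≤ n} =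
      (M k : Set (Fr k)) ∩ Bl (k + 2) n := rfl
    have hl0 : 0 ≤ (2 * k + 3 : ℝ) - 1 / (2 * k + 3) := by
      have : 1 / (2 * (k : ℝ) + 3) ≤ 1 := by
        rw [div_le_one hq]; linarith
      linarith
    unfold prob
    rw [h2, div_le_iff₀ (hballpos n)]
    refine h1.trans ?_
    rw [div_pow]
    have h3 : 4 * ((2 * (k : ℝ) + 3 - 1 / (2 * k + 3)) ^ n / (2 * k + 3) ^ n) * (2 * k + 3) ^ n =
        4 * (2 * (k : ℝ) + 3 - 1 / (2 * k + 3)) ^ n := by
      field_simp
    rw [← h3]
    apply mul_le_mul_of_nonneg_left (hball n)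
    positivity
  have hlam0 : 0 < ((2 * k + 3 : ℝ) - 1 / (2 * k + 3)) / (2 * k + 3) := by
    apply div_pos _ hq
    have : 1 / (2 * (k : ℝ) + 3) ≤ 1 := by
      rw [div_le_one hq]; linarith
    linarith
  have hlam1 : ((2 * k + 3 : ℝ) - 1 / (2 * k + 3)) / (2 * k + 3) < 1 := by
    rw [div_lt_one hq]
    have : 0 < 1 / (2 * (k : ℝ) + 3) := by positivity
    linarith
  have hall : ∀ w : FreeGroup (Fin (k + 2)), w ≠ 1 →
      w ∈ autClosure (k + 2) (Subsemigroup.closure (X0 k) : Set (Fr k)) := by
    intro w hw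
    obtain ⟨φ, m, hm, h⟩ := good_of_ne_one w hw
    exact ⟨φ, m, hm, h⟩
  refine ⟨X0 k, X0_finite, ⟨_, hlam0, hlam1, hexp⟩, ?_, hall, ?_⟩
  · refine squeeze_zero (fun n => by unfold prob; positivity) hexp ?_
    have := (tendsto_pow_atTop_nhds_zero_of_lt_one hlam0.le hlam1).const_mul 4
    simpa using this
  · -- at most one element of the ball is missing
    have hlow : ∀ n : ℕ, 1 - (1 / (2 * k + 3 : ℝ)) ^ n ≤
        prob (k + 2) (autClosure (k + 2) (Subsemigroup.closure (X0 k) : Set (Fr k))) n := by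
      intro n
      unfold prob
      rw [le_div_iff₀ (hballpos n)]
      have h1 : (Set.ncard {w : FreeGroup (Fin (k + 2)) | w.toWord.length ≤ n} : ℝ) ≤
          (Set.ncard {w | w ∈ autClosure (k + 2)
            (Subsemigroup.closure (X0 k) : Set (Fr k)) ∧ w.toWord.length ≤ n} : ℝ) + 1 := by
        have h2 : {w : FreeGroup (Fin (k + 2)) | w.toWord.length ≤ n} ⊆
            insert 1 {w | w ∈ autClosure (k + 2)
            (Subsemigroup.closure (X0 k) : Set (Fr k)) ∧ w.toWord.length ≤ n} := by
          intro w hw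
          by_cases h : w = 1
          · exact Or.inl h
          · exact Or.inr ⟨hall w h, hw⟩
        have hfin : {w | w ∈ autClosure (k + 2)
            (Subsemigroup.closure (X0 k) : Set (Fr k)) ∧ w.toWord.length ≤ n}.Finite :=
          (Bl_finite (k + 2) n).subset (fun w hw => hw.2)
        have h3 := Set.ncard_le_ncard h2 (hfin.insert 1)
        have h4 := Set.ncard_insert_le (1 : FreeGroup (Fin (k + 2))) {w | w ∈ autClosure (k + 2)
            (Subsemigroup.closure (X0 k) : Set (Fr k)) ∧ w.toWord.length ≤ n}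
        exact_mod_cast h3.trans h4
      have h5 : 1 ≤ (1 / (2 * k + 3 : ℝ)) ^ n *
          (Set.ncard {w : FreeGroup (Fin (k + 2)) | w.toWord.length ≤ n} : ℝ) := by
        calc (1 : ℝ) = (1 / (2 * k + 3 : ℝ)) ^ n * (2 * k + 3) ^ n := by
              rw [← mul_pow, one_div, inv_mul_cancel₀ hq.ne', one_pow]
          _ ≤ _ := mul_le_mul_of_nonneg_left (hball n) (by positivity)
      have h6 : (1 - (1 / (2 * k + 3 : ℝ)) ^ n) *
          (Set.ncard {w : FreeGroup (Fin (k + 2)) | w.toWord.length ≤ n} : ℝ) =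
          (Set.ncard {w : FreeGroup (Fin (k + 2)) | w.toWord.length ≤ n} : ℝ) -
          (1 / (2 * k + 3 : ℝ)) ^ n *
          (Set.ncard {w : FreeGroup (Fin (k + 2)) | w.toWord.length ≤ n} : ℝ) := by ring
      rw [h6]
      linarith
    have hup : ∀ n : ℕ,
        prob (k + 2) (autClosure (k + 2) (Subsemigroup.closure (X0 k) : Set (Fr k))) n ≤ 1 := by
      intro n
      unfold prob
      rw [div_le_one (hballpos n)]
      have hsub : {w | w ∈ autClosure (k + 2)
            (Subsemigroup.closure (X0 k) : Set (Fr k)) ∧ w.toWord.length ≤ n} ⊆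
          {w : FreeGroup (Fin (k + 2)) | w.toWord.length ≤ n} := fun w hw => hw.2
      exact_mod_cast Set.ncard_le_ncard hsub (Bl_finite (k + 2) n)
    have hlim : Tendsto (fun n : ℕ => 1 - (1 / (2 * k + 3 : ℝ)) ^ n) atTop (𝓝 1) := by
      have h1 : (1 / (2 * k + 3 : ℝ)) < 1 := by
        rw [div_lt_one hq]; linarith
      have := (tendsto_pow_atTop_nhds_zero_of_lt_one (by positivity) h1).const_sub 1
      simpa using this
    exact tendsto_of_tendsto_of_tendsto_of_le_of_le hlim tendsto_const_nhds hlow hup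

end Pool.Agent.Results.MP_b831a3_al.SmallSemigroupFullClosure
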